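import Pool.Agent.Helper61.EP.StC
import Pool.Agent.Helper65.RL.LNX

/-!
# Project EP (MP_cb927e_an), module CNW: the main numbers
-/

set_option autoImplicit false

open MeasureTheory Set Filter Topology

namespace Pool.Agent.Helper79.EP

open Pool.Agent.Helper61.EP Pool.Agent.Helper20.RG Pool.Agent.Helper20.RL
open Pool.Agent.Helper65.RL (X X_pos X_add X_mono poly fin_step ns_le one_le_ns W_le)

/-- the exponent of the second term -/
theorem expW2 {p s γ β : ℝ} (hp1 : 1 < p) (hβ : γ ≤ β) (hγ : 0 < γ) :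
    min β p + 3 / 2 * max 0 (1 - β / p) + (1 - s) / 2 ≤
      max (p - (s - 1) / 2) (2 + γ - 3 * γ / (2 * p) - s / 2) := by
  have hp0 : 0 < p := by linarith
  rcases le_total p β with h | h
  · have h1 : 1 - β / p ≤ 0 := by
      have : 1 ≤ β / p := by rw [le_div_iff₀ hp0]; linarith
      linarith
    rw [max_eq_left h1, min_eq_right h]
    refine le_trans ?_ (le_max_left _ _)
    linarith
  · set t : ℝ := β / p with ht
    have hβt : β = p * t := by rw [ht]; field_simp
    have ht1 : t ≤ 1 := by rw [ht, div_le_one hp0]; exact h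
    rw [max_eq_right (by linarith : 0 ≤ 1 - t), min_eq_left h]
    set g : ℝ := γ / p with hg
    have hγg : γ = p * g := by rw [hg]; field_simp
    have hgt : g ≤ t := by rw [hg, ht]; exact div_le_div_of_nonneg_right hβ hp0.le
    have e : 3 * γ / (2 * p) = 3 / 2 * g := by rw [hg]; field_simp
    rw [e]
    rcases le_total (3 / 2) p with h3 | h3
    · refine le_trans ?_ (le_max_left _ _)
      rw [hβt]
      nlinarith [mul_nonneg (by linarith : (0 : ℝ) ≤ p - 3 / 2) (by linarith : (0 : ℝ) ≤ 1 - t)]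
    · refine le_trans ?_ (le_max_right _ _)
      rw [hβt, hγg]
      nlinarith [mul_nonneg (by linarith : (0 : ℝ) ≤ 3 / 2 - p) (by linarith : (0 : ℝ) ≤ t - g)]

/-- the exponent of the first term, with a gain -/
theorem expW1 {p ε β : ℝ} (hp1 : 1 < p) (hε : 0 < ε) :
    min β (p - ε) + max 0 (1 - β / p) ≤ p - ε * (1 - 1 / p) := by
  have hp0 : 0 < p := by linarith
  have hp2 : 0 < 1 - 1 / p := by
    have : 1 / p < 1 := by rw [div_lt_one hp0]; exact hp1
    linarith
  have hp3 : 1 - 1 / p ≤ 1 := by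
    have : 0 < 1 / p := by positivity
    linarith
  rcases le_total p β with h | h
  · have h1 : 1 - β / p ≤ 0 := by
      have : 1 ≤ β / p := by rw [le_div_iff₀ hp0]; linarith
      linarith
    rw [max_eq_left h1]
    have h2 := min_le_right β (p - ε)
    nlinarith
  · have h1 : 0 ≤ 1 - β / p := by
      have : β / p ≤ 1 := by rw [div_le_one hp0]; exact h
      linarith
    rw [max_eq_right h1]
    set M := min β (p - ε) with hM
    have h2 : M ≤ β := min_le_left _ _
    have h3 : M ≤ p - ε := min_le_right _ _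
    have h4 : M / p ≤ β / p := div_le_div_of_nonneg_right h2 hp0.le
    have h5 : M * (1 - 1 / p) ≤ (p - ε) * (1 - 1 / p) := mul_le_mul_of_nonneg_right h3 hp2.le
    have h6 : (p - ε) * (1 - 1 / p) = p - 1 - ε * (1 - 1 / p) := by field_simp
    have h7 : M * (1 - 1 / p) = M - M / p := by ring
    linarith

/-- the exponent of the first term -/
theorem expW0 {p β : ℝ} (hp1 : 1 < p) : min β p + max 0 (1 - β / p) ≤ p := by
  have hp0 : 0 < p := by linarith
  rcases le_total p β with h | h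
  · have h1 : 1 - β / p ≤ 0 := by
      have : 1 ≤ β / p := by rw [le_div_iff₀ hp0]; linarith
      linarith
    rw [max_eq_left h1, min_eq_right h]
    linarith
  · set t : ℝ := β / p with ht
    have hβt : β = p * t := by rw [ht]; field_simp
    have ht1 : t ≤ 1 := by rw [ht, div_le_one hp0]; exact h
    rw [max_eq_right (by linarith : 0 ≤ 1 - t), min_eq_left h]
    rw [hβt]; nlinarith

/-- the product, for given exponents -/
theorem main_le {A p s Cf e M W : ℝ} (hA : 0 ≤ A) (hp1 : 1 < p) (hCf : 1 ≤ Cf) {u b : ℕ} (hu : 1 ≤ u)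
    (hW0 : 0 ≤ W) (hW : W ≤ 10 ^ 6 * Cf * (u : ℝ) ^ 5 * X u M)
    (h1 : M + max 0 (1 - (b : ℝ) / u / p) ≤ e)
    (h2 : M + 3 / 2 * max 0 (1 - (b : ℝ) / u / p) + (1 - s) / 2 ≤ e) :
    W * (ns u b A p + (ns u b A p) ^ (3 / 2 : ℝ) * (2 : ℝ) ^ ((1 - s) / 2 * u)) ≤
      10 ^ 6 * Cf * ((1 + A) + (1 + A) ^ 2) * (u : ℝ) ^ 5 * X u e := by
  have hp0 : 0 < p := by linarith
  set ν : ℝ := max 0 (1 - (b : ℝ) / u / p) with hν
  have hns : ns u b A p ≤ (1 + A) * X u ν := ns_le hu hA hp0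
  have hns1 := one_le_ns (u := u) (b := b) (σ := p) hA
  have hXν := X_pos u ν
  have hns32 : ns u b A p ^ (3 / 2 : ℝ) ≤ (1 + A) ^ 2 * X u (3 / 2 * ν) := by
    have h1 : ns u b A p ^ (3 / 2 : ℝ) ≤ ((1 + A) * X u ν) ^ (3 / 2 : ℝ) :=
      Real.rpow_le_rpow (by linarith) hns (by norm_num)
    refine h1.trans ?_
    rw [Real.mul_rpow (by linarith) hXν.le]
    have h2 : (1 + A) ^ (3 / 2 : ℝ) ≤ (1 + A) ^ 2 := by
      rw [← Real.rpow_natCast]
      exact Real.rpow_le_rpow_of_exponent_le (by linarith) (by norm_num)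
    have h3 : X u ν ^ (3 / 2 : ℝ) = X u (3 / 2 * ν) := by
      unfold X
      rw [← Real.rpow_mul (by norm_num)]
      congr 1
      ring
    rw [h3]
    exact mul_le_mul_of_nonneg_right h2 (X_pos u _).le
  have hXY := X_pos u ((1 - s) / 2)
  have hXm := X_pos u M
  have hX3 := X_pos u (3 / 2 * ν)
  have hn0 : 0 ≤ ns u b A p := by linarith
  have hn32 : 0 ≤ ns u b A p ^ (3 / 2 : ℝ) := Real.rpow_nonneg hn0 _
  change W * (ns u b A p + (ns u b A p) ^ (3 / 2 : ℝ) * X u ((1 - s) / 2)) ≤ _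
  calc W * (ns u b A p + (ns u b A p) ^ (3 / 2 : ℝ) * X u ((1 - s) / 2))
      ≤ (10 ^ 6 * Cf * (u : ℝ) ^ 5 * X u M) *
        ((1 + A) * X u ν + (1 + A) ^ 2 * X u (3 / 2 * ν) * X u ((1 - s) / 2)) := by gcongr
    _ = 10 ^ 6 * Cf * (u : ℝ) ^ 5 * ((1 + A) * X u (M + ν) +
        (1 + A) ^ 2 * X u (M + 3 / 2 * ν + (1 - s) / 2)) := by
        rw [X_add, X_add, X_add]; ring
    _ ≤ 10 ^ 6 * Cf * (u : ℝ) ^ 5 * ((1 + A) * X u e + (1 + A) ^ 2 * X u e) := by
        have h3 : X u (M + ν) ≤ X u e := X_mono u h1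
        have h4 : X u (M + 3 / 2 * ν + (1 - s) / 2) ≤ X u e := X_mono u h2
        gcongr
    _ = _ := by ring

theorem hCNW : StCNW := by
  constructor
  · rintro A p s γ ε Cf hA ⟨hs1, hsp, hp2, hγ0, hγp, hex⟩ hε hCf
    have hp1 : 1 < p := by linarith
    have hp0 : 0 < p := by linarith
    have hp3 : 0 < 1 - 1 / p := by
      have : 1 / p < 1 := by rw [div_lt_one hp0]; exact hp1
      linarith
    set e₀ := max (p - ε * (1 - 1 / p)) (max (p - (s - 1) / 2) (2 + γ - 3 * γ / (2 * p) - s / 2))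
      with he₀
    have he : e₀ < p := by
      refine max_lt ?_ (max_lt (by linarith) hex)
      have : 0 < ε * (1 - 1 / p) := mul_pos hε hp3
      linarith
    have hP₀ : 0 ≤ 10 ^ 6 * Cf * ((1 + A) + (1 + A) ^ 2) := by positivity
    obtain ⟨C, ε', hC, hε', h⟩ := fin_step (q := p) (e := e₀) 5 he hP₀
    refine ⟨C, ε', hC, hε', fun u b K hu hb hK hor => h u _ ?_⟩
    have hu' : (0 : ℝ) < u := by exact_mod_cast hu
    have hβ1 : γ ≤ (b : ℝ) / u := by
      rw [le_div_iff₀ hu']; exact hb.le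
    have hWM : min (10 ^ 6 * (u : ℝ) ^ 5 * 2 ^ b) (K : ℝ) ≤
        10 ^ 6 * Cf * (u : ℝ) ^ 5 * X u (min ((b : ℝ) / u) (p - ε)) := by
      rcases hor with h1 | h1
      · have h2 : (b : ℝ) / u ≤ p - ε := by rw [div_le_iff₀ hu']; exact h1
        have h3 := W_le (u := u) (b := b) (K := K) (σ := p) (Cf := Cf) hu hCf hK
        rw [min_eq_left (by linarith : (b : ℝ) / u ≤ p)] at h3
        rw [min_eq_left h2]
        exact h3
      · exact W_le (u := u) (b := b) (K := K) (σ := p - ε) (Cf := Cf) hu hCf h1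
    have hx1 := expW1 (β := (b : ℝ) / u) hp1 hε
    have hx2 := expW2 (s := s) hp1 hβ1 hγ0
    have hmin : min ((b : ℝ) / u) (p - ε) ≤ min ((b : ℝ) / u) p :=
      min_le_min_left _ (by linarith)
    refine main_le hA hp1 hCf hu (le_min (by positivity) (Nat.cast_nonneg K)) hWM
      (hx1.trans (le_max_left _ _)) (le_trans ?_ (hx2.trans (le_max_right _ _)))
    linarith
  · rintro A p s γ κ Cf hA ⟨hs1, hsp, hp2, hγ0, hγp, hex⟩ hκ hCf
    have hp1 : 1 < p := by linarith
    obtain ⟨C, hC, h⟩ := poly 5 hκ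
    have hP₀ : 0 < 10 ^ 6 * Cf * ((1 + A) + (1 + A) ^ 2) := by positivity
    refine ⟨10 ^ 6 * Cf * ((1 + A) + (1 + A) ^ 2) * C, by positivity, fun u b K hu hb hK => ?_⟩
    have hu' : (0 : ℝ) < u := by exact_mod_cast hu
    have hβ1 : γ ≤ (b : ℝ) / u := by
      rw [le_div_iff₀ hu']; exact hb.le
    have hW := W_le (u := u) (b := b) (K := K) (σ := p) (Cf := Cf) hu hCf hK
    have hx1 := expW0 (β := (b : ℝ) / u) hp1
    have hx2 := expW2 (s := s) hp1 hβ1 hγ0
    have hm : max (p - (s - 1) / 2) (2 + γ - 3 * γ / (2 * p) - s / 2) ≤ p :=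
      max_le (by linarith) hex.le
    refine (main_le (s := s) hA hp1 hCf hu (le_min (by positivity) (Nat.cast_nonneg K)) hW
      hx1 (hx2.trans hm)).trans ?_
    have hX : (2 : ℝ) ^ ((p + κ) * u) = X u p * X u κ := by rw [← X_add]; rfl
    rw [hX]
    have h1 := h u
    have h2 := X_pos u p
    calc 10 ^ 6 * Cf * ((1 + A) + (1 + A) ^ 2) * (u : ℝ) ^ 5 * X u p
        ≤ 10 ^ 6 * Cf * ((1 + A) + (1 + A) ^ 2) * (C * X u κ) * X u p := by gcongr
      _ = _ := by ring

end Pool.Agent.Helper79.EP
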