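import Pool.Agent.Helper68.EP.St2

set_option autoImplicit false

/-!
# Project EP, module EEN: entries lie in the ridges
-/

open MeasureTheory Set

namespace Pool.Agent.Helper79.EP

open Pool.Agent.Helper68.EP Pool.Agent.Helper20.RG
open Pool.Agent.Helper20.RL (RQ Rich BM Fml)

theorem hEEN (hEFB : StEFB) (hEF1 : StEF1) : StEEN := by
  intro P Δ u₁ j₁ q k₁ κ s₂ θ E z hS hO hj hE hq0 hq1 hz hL hκ hκ' hsep
  obtain ⟨-, hmono, -, -, -⟩ := hEFB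
  obtain ⟨-, -, -, h4, -⟩ := hEF1 P Δ u₁ j₁ k₁ θ E z hS hO hj hE hz
  obtain ⟨hB, -, -⟩ := h4 q hq0 hq1.le hL.1
  have hq5 : 5 ≤ q := hO.qq.1.trans hq0
  have e1 : (2 : ℤ) ^ q = 16 * 2 ^ (q - 4) := by
    have : q = (q - 4) + 4 := by omega
    rw [this, pow_add, Nat.add_sub_cancel]
    ring
  have e2 : (2 : ℤ) ^ (q + 1) = 32 * 2 ^ (q - 4) := by
    rw [pow_succ, e1]
    ring
  have hu : (64 : ℤ) * u₁ ≤ 2 ^ q := by
    have h1 : 64 * u₁ ≤ 2 ^ q0 P u₁ := hO.uq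
    have h2 : 2 ^ q0 P u₁ ≤ 2 ^ q := Nat.pow_le_pow_right (by norm_num) hq0
    exact_mod_cast h1.trans h2
  have hG : (0 : ℤ) < 2 ^ (q - 4) := by positivity
  have hsub : Fo P u₁ k₁ q E ⊆ Fb E (DD P u₁) (κ - 15 * 2 ^ (q - 4)) := by
    refine hmono E (DD P u₁) (DD P u₁) (k₁ - 2 ^ q) (κ - 15 * 2 ^ (q - 4)) ?_ le_rfl
    rw [e1]
    linarith
  refine ⟨⟨j₁, hj, hsep, Bc P Δ u₁ j₁ k₁ θ E z, ?_, ?_⟩, hsub hL.1, ?_⟩
  · rw [e1] at hB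
    linarith
  · have h5 := hz.2.2.2 q hq0 hq1.le hL.1 (κ - 12 * 2 ^ (q - 4)) (by
      rw [e1] at hu
      linarith)
    exact h5.trans (measure_mono (inter_subset_inter_left _ hsub))
  · intro h
    apply hL.2
    refine hmono E (DD P u₁) (DD P u₁) (κ - 33 * 2 ^ (q - 4)) (k₁ - 2 ^ (q + 1)) ?_ le_rfl h
    rw [e2]
    linarith

end Pool.Agent.Helper79.EP
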