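import Pool.Agent.Helper68.EP.St3

set_option autoImplicit false

/-!
# Project EP, module EM4: cells rich in a subset
-/

open MeasureTheory Set

namespace Pool.Agent.Helper79.EP

open Pool.Agent.Helper68.EP Pool.Agent.Helper20.RG
open Pool.Agent.Helper20.RL (RQ Rich BM Fml)

theorem hEM4 (hLGR : Pool.Agent.Helper20.RL.StLGR) (hEFB : StEFB) (hEVF : StEVF) : StEM4 := by
  intro P Δ u j k θ μ E E' y hE hθ hμ hE' hy hvol z hz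
  obtain ⟨hg1, hg2, -, -, -⟩ := hLGR
  obtain ⟨-, -, h3, -, -⟩ := hEFB
  obtain ⟨hB, -, -, -⟩ := (hEVF P Δ u j k θ E hE hθ).1 y hy
  refine ⟨Bc P Δ u j k θ E y, hB.1, hB.2.1, ?_⟩
  have hcell : RQ (Δ.sl u j) (k - (u : ℤ)) (Bc P Δ u j k θ E y) z = Qc P Δ u j k θ E y :=
    hg2 _ _ _ _ _ hz
  have hv : volume (Qc P Δ u j k θ E y) =
      ENNReal.ofReal ((2 : ℝ) ^ (k - (u : ℤ) + Bc P Δ u j k θ E y)) := (hg1 _ _ _ _).2.1
  show ENNReal.ofReal (μ * (2 : ℝ) ^ (k - (u : ℤ) + Bc P Δ u j k θ E y)) ≤ volume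
    (Fo P u k (q0 P u) E' ∩ RQ (Δ.sl u j) (k - (u : ℤ)) (Bc P Δ u j k θ E y) z)
  rw [hcell, ENNReal.ofReal_mul hμ.le, ← hv]
  refine hvol.trans (measure_mono ?_)
  intro x hx
  exact ⟨h3 E E' (DD P u) (k - 2 ^ q0 P u) hE' ⟨hx.1.2, hx.1.1⟩, hx.2⟩

end Pool.Agent.Helper79.EP
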